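import Pool.Agent.Helper2_Dil.Main

namespace Pool.Agent.Results.MP_6528c2_nt.Dilation

/-- The set `S_{p,q}` of all products `p ^ a * q ^ b` with `a, b ≥ 0`. -/
def S (p q : ℕ) : Set ℕ := {t | ∃ a b : ℕ, t = p ^ a * q ^ b}

/-- `f p q n` is the number of finite subsets `T` of `S p q` whose elements add up to `n`. -/
noncomputable def f (p q n : ℕ) : ℕ :=
  {T : Finset ℕ | (∀ t ∈ T, t ∈ S p q) ∧ ∑ t ∈ T, t = n}.ncard

theorem result : ∀ p q : ℕ, 1 < p → p < q → Nat.Coprime p q → ∀ ℓ : ℕ, 2 ≤ ℓ →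
    ∀ ε : ℝ, 0 < ε → ∃ C : ℝ, ∀ᶠ n : ℕ in Filter.atTop,
      (f p q (ℓ * n) : ℝ) ≤
        C * (n : ℝ) ^ (Real.log 2 * Real.log ℓ / (Real.log p * Real.log q) + ε) * f p q n := by
  intro p q hp hpq hcop ℓ hℓ ε hε
  have hp2 : 2 ≤ p := hp
  have hq2 : 2 ≤ q := by omega
  obtain ⟨C, -, N₀, hN⟩ := Pool.Agent.Helper2Dil.cnt_dilation hp2 hq2 hcop hℓ hε
  refine ⟨C, Filter.eventually_atTop.2 ⟨N₀, fun n hn => ?_⟩⟩
  have h1 : ∀ m : ℕ, f p q m = Pool.Agent.Helper2Dil.cnt p q Set.univ m := fun m =>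
    Pool.Agent.Helper2Dil.ncard_eq_cnt hp2 hq2 hcop m
  rw [h1, h1]
  exact hN n hn

end Pool.Agent.Results.MP_6528c2_nt.Dilation
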